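import Mathlib
import Pool.Agent.P8H82.WS.Stm2

set_option autoImplicit false

/-! Project WS, package ISO. -/

namespace Pool.Agent.P8H33.WS

open NumberField IsDedekindDomain
open Pool.Agent.P8H82.WS

/-- Vieta -/
theorem vieta {K : Type} [Field K] [NumberField K] {E : WeierstrassCurve K} {e : Fin 3 → K}
    (h : Two E e) : E.b₂ = -4 * (e 0 + e 1 + e 2) ∧ E.b₄ = 2 * (e 0 * e 1 + e 0 * e 2 + e 1 * e 2) ∧
      E.b₆ = -4 * (e 0 * e 1 * e 2) := by
  have h0 := h.root 0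
  have h1 := h.root 1
  have h2 := h.root 2
  have n01 : e 0 - e 1 ≠ 0 := sub_ne_zero.2 (fun hh => by simpa using h.inj hh)
  have n02 : e 0 - e 2 ≠ 0 := sub_ne_zero.2 (fun hh => by simpa using h.inj hh)
  have n12 : e 1 - e 2 ≠ 0 := sub_ne_zero.2 (fun hh => by simpa using h.inj hh)
  have a01 : 4 * (e 0 ^ 2 + e 0 * e 1 + e 1 ^ 2) + E.b₂ * (e 0 + e 1) + 2 * E.b₄ = 0 := by
    apply mul_left_cancel₀ n01
    linear_combination h0 - h1
  have a02 : 4 * (e 0 ^ 2 + e 0 * e 2 + e 2 ^ 2) + E.b₂ * (e 0 + e 2) + 2 * E.b₄ = 0 := by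
    apply mul_left_cancel₀ n02
    linear_combination h0 - h2
  have hb2 : E.b₂ = -4 * (e 0 + e 1 + e 2) := by
    apply mul_left_cancel₀ n12
    linear_combination a01 - a02
  have hb4 : E.b₄ = 2 * (e 0 * e 1 + e 0 * e 2 + e 1 * e 2) := by
    rw [hb2] at a01
    linear_combination a01 / 2
  refine ⟨hb2, hb4, ?_⟩
  rw [hb2, hb4] at h0
  linear_combination h0

theorem iso : S_ISO := by
  intro K _ _ E E' e e' hE hE' g hg h1 h2
  obtain ⟨b2, b4, b6⟩ := vieta hE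
  obtain ⟨b2', b4', b6'⟩ := vieta hE'
  obtain ⟨r, hr⟩ : ∃ r, r = e 0 - g⁻¹ ^ 2 * e' 0 := ⟨_, rfl⟩
  have hgg : g * g⁻¹ = 1 := mul_inv_cancel₀ hg
  have e0 : e' 0 = g ^ 2 * (e 0 - r) := by
    rw [hr]
    field_simp
    ring
  have e1 : e' 1 = g ^ 2 * (e 1 - r) := by linear_combination h1 + e0
  have e2 : e' 2 = g ^ 2 * (e 2 - r) := by linear_combination h2 + e0
  have hu : ((Units.mk0 g hg)⁻¹ : Kˣ)⁻¹ = Units.mk0 g hg := inv_inv _
  refine ⟨⟨(Units.mk0 g hg)⁻¹, r, (g⁻¹ * E'.a₁ - E.a₁) / 2,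
    (g⁻¹ ^ 3 * E'.a₃ - E.a₃ - r * E.a₁) / 2⟩, ?_⟩
  set C : WeierstrassCurve.VariableChange K := ⟨(Units.mk0 g hg)⁻¹, r, (g⁻¹ * E'.a₁ - E.a₁) / 2,
    (g⁻¹ ^ 3 * E'.a₃ - E.a₃ - r * E.a₁) / 2⟩ with hC
  have w1 : (C • E).a₁ = E'.a₁ := by
    rw [WeierstrassCurve.variableChange_a₁, hC]
    simp only [inv_inv, Units.val_mk0]
    field_simp
    ring
  have w3 : (C • E).a₃ = E'.a₃ := by
    rw [WeierstrassCurve.variableChange_a₃, hC]
    simp only [inv_inv, Units.val_mk0]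
    field_simp
    ring
  have v2 : (C • E).b₂ = E'.b₂ := by
    rw [WeierstrassCurve.variableChange_b₂, hC]
    simp only [inv_inv, Units.val_mk0]
    rw [b2, b2', e0, e1, e2]
    ring
  have v4 : (C • E).b₄ = E'.b₄ := by
    rw [WeierstrassCurve.variableChange_b₄, hC]
    simp only [inv_inv, Units.val_mk0]
    rw [b2, b4, b4', e0, e1, e2]
    ring
  have v6 : (C • E).b₆ = E'.b₆ := by
    rw [WeierstrassCurve.variableChange_b₆, hC]
    simp only [inv_inv, Units.val_mk0]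
    rw [b2, b4, b6, b6', e0, e1, e2]
    ring
  rw [WeierstrassCurve.b₂, WeierstrassCurve.b₂, w1] at v2
  rw [WeierstrassCurve.b₄, WeierstrassCurve.b₄, w1, w3] at v4
  rw [WeierstrassCurve.b₆, WeierstrassCurve.b₆, w3] at v6
  ext
  · exact w1
  · linear_combination v2 / 4
  · exact w3
  · linear_combination v4 / 2
  · linear_combination v6 / 4

end Pool.Agent.P8H33.WS
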