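import Mathlib
import Pool.Agent.P8H82.WS.Stm2

set_option autoImplicit false

/-! Project WS, package SEC. -/

namespace Pool.Agent.P8H33.WS

open NumberField IsDedekindDomain
open Pool.Agent.P8H82.WS
open Pool.Agent.P8H82.JG (Gold Triple)

theorem leg_of {K : Type} [Field K] [NumberField K] (E : WeierstrassCurve K) (x y z : K)
    (hxy : x ≠ y) (hxz : x ≠ z) (hyz : y ≠ z)
    (h : ∀ t : K, 4 * t ^ 3 + E.b₂ * t ^ 2 + 2 * E.b₄ * t + E.b₆ = 4 * (t - x) * (t - y) * (t - z)) :
    IsLeg E ((z - x) / (y - x)) := by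
  refine ⟨![x, y, z], ⟨?_, ?_⟩, ?_⟩
  · intro i j hij
    fin_cases i <;> fin_cases j <;> first | rfl | (exfalso; simp at hij; tauto)
  · intro i
    rw [h]
    fin_cases i <;> simp
  · simp

/-- the curve of a pair -/
theorem curve_of {K : Type} [Field K] [NumberField K] {σ τ : K →+* ℝ} (hG : Gold K σ τ)
    (hUNI : S_UNI) (hSEF : S_SEF) (A D : 𝓞 K) (hA : ¬ (2 : 𝓞 K) ∣ A) (hD : (16 : 𝓞 K) ∣ D)
    (hne : A * D * (A + D) ≠ 0) (hcop : Ideal.span {A, D} = (⊤ : Ideal (𝓞 K))) :
    ∃ (E : WeierstrassCurve K) (k : K), (∀ v, SemiAt v E) ∧ k ≠ 0 ∧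
      ∀ x : K, 4 * x ^ 3 + E.b₂ * x ^ 2 + 2 * E.b₄ * x + E.b₆ =
        4 * x * (x - k * A) * (x + k * D) := by
  obtain ⟨u, hu⟩ := hUNI K σ τ hG A hA
  have hun : (u : 𝓞 K) ≠ 0 := u.ne_zero
  obtain ⟨E, hE, hx⟩ := hSEF K (u * A) (u * D) (by
      have : (u : 𝓞 K) * A * (u * D) * (u * A + u * D) = u ^ 3 * (A * D * (A + D)) := by ring
      rw [this]
      exact mul_ne_zero (pow_ne_zero _ hun) hne)
    (by
      rw [eq_top_iff, ← hcop, Ideal.span_le]
      intro y hy
      have hinv : ∀ z : 𝓞 K, ((u⁻¹ : (𝓞 K)ˣ) : 𝓞 K) * (u * z) = z := by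
        intro z
        rw [← mul_assoc, Units.inv_mul, one_mul]
      rcases hy with rfl | hy
      · rw [← hinv y]
        exact Ideal.mul_mem_left _ _ (Ideal.subset_span (by simp))
      · rw [Set.mem_singleton_iff] at hy
        subst hy
        rw [← hinv y]
        exact Ideal.mul_mem_left _ _ (Ideal.subset_span (by simp)))
    hu (hD.mul_left _)
  refine ⟨E, (algebraMap (𝓞 K) K u) / 4, hE, ?_, ?_⟩
  · apply div_ne_zero
    · intro h0
      exact hun ((FaithfulSMul.algebraMap_injective (𝓞 K) K) (by rw [h0, map_zero]))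
    · norm_num
  · intro x
    rw [hx]
    simp only [RingOfIntegers.coe_eq_algebraMap, map_mul]
    ring

theorem sec (hTWO : S_TWO) (hUNI : S_UNI) (hSEF : S_SEF) : S_SEC := by
  intro K _ _ σ τ hG t ht h16
  obtain ⟨a, b, c⟩ := t
  obtain ⟨hsum, hne, hcop⟩ := ht
  simp only at hsum hne hcop h16
  obtain ⟨P, hP, -⟩ := hTWO K σ τ hG
  have h2ne : (2 : 𝓞 K) ≠ 0 := by
    intro h
    apply P.ne_bot
    rw [hP, h]
    simp
  have h2 : Prime (2 : 𝓞 K) := (Ideal.span_singleton_prime h2ne).1 (hP ▸ P.isPrime)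
  have ha : a ≠ 0 := fun h => hne (by rw [h]; ring)
  have hb : b ≠ 0 := fun h => hne (by rw [h]; ring)
  have hc : c ≠ 0 := fun h => hne (by rw [h]; ring)
  have hcab : c = -(a + b) := by linear_combination hsum
  have top2 : ∀ x y : 𝓞 K, (a ∈ Ideal.span {x, y}) → (b ∈ Ideal.span {x, y}) →
      Ideal.span {x, y} = (⊤ : Ideal (𝓞 K)) := by
    intro x y h1 h2
    rw [eq_top_iff, ← hcop, Ideal.span_le]
    intro z hz
    rcases hz with rfl | rfl | hz
    · exact h1
    · exact h2
    · rw [Set.mem_singleton_iff] at hz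
      rw [hz, hcab]
      exact neg_mem (add_mem h1 h2)
  have mx : ∀ x y : 𝓞 K, x ∈ Ideal.span {x, y} := fun x y => Ideal.subset_span (by simp)
  have my : ∀ x y : 𝓞 K, y ∈ Ideal.span {x, y} := fun x y => Ideal.subset_span (by simp)
  have tab : Ideal.span {b, a} = (⊤ : Ideal (𝓞 K)) := top2 _ _ (my _ _) (mx _ _)
  have tcb : Ideal.span {c, b} = (⊤ : Ideal (𝓞 K)) := by
    apply top2 _ _ _ (my _ _)
    have : a = -(c + b) := by linear_combination hsum
    rw [this]
    exact neg_mem (add_mem (mx _ _) (my _ _))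
  have tac : Ideal.span {a, c} = (⊤ : Ideal (𝓞 K)) := by
    apply top2 _ _ (mx _ _)
    have : b = -(a + c) := by linear_combination hsum
    rw [this]
    exact neg_mem (add_mem (mx _ _) (my _ _))
  have both : ∀ x y : 𝓞 K, Ideal.span {x, y} = (⊤ : Ideal (𝓞 K)) → (2 : 𝓞 K) ∣ x →
      (2 : 𝓞 K) ∣ y → False := by
    intro x y hxy hx hy
    apply h2.not_unit
    rw [← Ideal.span_singleton_eq_top, eq_top_iff, ← hxy, Ideal.span_le]
    intro z hz
    rcases hz with rfl | hz
    · exact Ideal.mem_span_singleton.2 hx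
    · rw [Set.mem_singleton_iff] at hz
      rw [hz]
      exact Ideal.mem_span_singleton.2 hy
  have e16 : (16 : 𝓞 K) = 2 ^ 4 := by norm_num
  have inj := FaithfulSMul.algebraMap_injective (𝓞 K) K
  have cne : ∀ x : 𝓞 K, x ≠ 0 → algebraMap (𝓞 K) K x ≠ 0 := by
    intro x hx h0
    exact hx (inj (by rw [h0, map_zero]))
  have haK := cne a ha
  have hbK := cne b hb
  have hcK := cne c hc
  have hsK : algebraMap (𝓞 K) K c = -(algebraMap (𝓞 K) K a + algebraMap (𝓞 K) K b) := by
    rw [hcab, map_neg, map_add]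
  have hdvd : (2 : 𝓞 K) ∣ a * b * c := Dvd.dvd.trans ⟨8, by norm_num⟩ h16
  rcases h2.dvd_or_dvd hdvd with h | h
  · rcases h2.dvd_or_dvd h with h | h
    · -- a even
      have nb : ¬ (2 : 𝓞 K) ∣ b := fun hh => both _ _ tab hh h
      have nc : ¬ (2 : 𝓞 K) ∣ c := fun hh => both _ _ tac h hh
      have h16a : (16 : 𝓞 K) ∣ a := by
        rw [e16] at h16 ⊢
        apply h2.pow_dvd_of_dvd_mul_left 4 nb
        apply h2.pow_dvd_of_dvd_mul_left 4 nc
        convert h16 using 1
        ring
      obtain ⟨E, k, hE, hk, hx⟩ := curve_of hG hUNI hSEF b a nb h16a (by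
        have : b + a = -c := by linear_combination hsum
        rw [this]
        exact mul_ne_zero (mul_ne_zero hb ha) (neg_ne_zero.2 hc)) tab
      refine ⟨E, hE, ?_⟩
      have := leg_of E (-(k * algebraMap (𝓞 K) K a)) (k * algebraMap (𝓞 K) K b) 0 ?_ ?_ ?_ ?_
      · convert this using 1
        show -(algebraMap (𝓞 K) K a) / (algebraMap (𝓞 K) K c) = _
        have : k * algebraMap (𝓞 K) K b - -(k * algebraMap (𝓞 K) K a) =
            -(k * algebraMap (𝓞 K) K c) := by rw [hsK]; ring
        rw [this]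
        field_simp
        ring
      · intro h0
        apply mul_ne_zero hk hcK
        rw [hsK]
        linear_combination h0
      · exact neg_ne_zero.2 (mul_ne_zero hk haK)
      · exact mul_ne_zero hk hbK
      · intro x
        rw [hx]
        simp only [RingOfIntegers.coe_eq_algebraMap]
        ring
    · -- b even
      have na : ¬ (2 : 𝓞 K) ∣ a := fun hh => both _ _ tab h hh
      have nc : ¬ (2 : 𝓞 K) ∣ c := fun hh => both _ _ tcb hh h
      have h16b : (16 : 𝓞 K) ∣ b := by
        rw [e16] at h16 ⊢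
        apply h2.pow_dvd_of_dvd_mul_left 4 na
        apply h2.pow_dvd_of_dvd_mul_left 4 nc
        convert h16 using 1
        ring
      obtain ⟨E, k, hE, hk, hx⟩ := curve_of hG hUNI hSEF c b nc h16b (by
        have : c + b = -a := by linear_combination hsum
        rw [this]
        exact mul_ne_zero (mul_ne_zero hc hb) (neg_ne_zero.2 ha)) tcb
      refine ⟨E, hE, ?_⟩
      have := leg_of E (k * algebraMap (𝓞 K) K c) 0 (-(k * algebraMap (𝓞 K) K b)) ?_ ?_ ?_ ?_
      · convert this using 1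
        show -(algebraMap (𝓞 K) K a) / (algebraMap (𝓞 K) K c) = _
        have : -(k * algebraMap (𝓞 K) K b) - k * algebraMap (𝓞 K) K c =
            k * algebraMap (𝓞 K) K a := by rw [hsK]; ring
        rw [this]
        field_simp
        ring
      · exact mul_ne_zero hk hcK
      · intro h0
        apply mul_ne_zero hk haK
        rw [hsK] at h0
        linear_combination -h0
      · exact (neg_ne_zero.2 (mul_ne_zero hk hbK)).symm
      · intro x
        rw [hx]
        simp only [RingOfIntegers.coe_eq_algebraMap]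
        ring
  · -- c even
    have na : ¬ (2 : 𝓞 K) ∣ a := fun hh => both _ _ tac hh h
    have nb : ¬ (2 : 𝓞 K) ∣ b := fun hh => both _ _ tcb h hh
    have h16c : (16 : 𝓞 K) ∣ c := by
      rw [e16] at h16 ⊢
      apply h2.pow_dvd_of_dvd_mul_left 4 na
      apply h2.pow_dvd_of_dvd_mul_left 4 nb
      convert h16 using 1
      ring
    obtain ⟨E, k, hE, hk, hx⟩ := curve_of hG hUNI hSEF a c na h16c (by
      have : a + c = -b := by linear_combination hsum
      rw [this]
      exact mul_ne_zero (mul_ne_zero ha hc) (neg_ne_zero.2 hb)) tac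
    refine ⟨E, hE, ?_⟩
    have := leg_of E 0 (-(k * algebraMap (𝓞 K) K c)) (k * algebraMap (𝓞 K) K a) ?_ ?_ ?_ ?_
    · convert this using 1
      show -(algebraMap (𝓞 K) K a) / (algebraMap (𝓞 K) K c) = _
      rw [sub_zero, sub_zero]
      field_simp
    · exact (neg_ne_zero.2 (mul_ne_zero hk hcK)).symm
    · exact (mul_ne_zero hk haK).symm
    · intro h0
      apply mul_ne_zero hk hbK
      rw [hsK] at h0
      linear_combination h0
    · intro x
      rw [hx]
      simp only [RingOfIntegers.coe_eq_algebraMap]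
      ring

end Pool.Agent.P8H33.WS
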