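import Mathlib
import Pool.Agent.P8H82.WS.Stm2

set_option autoImplicit false

/-! Project WS, package SEF. -/

namespace Pool.Agent.P8H33.WS

open NumberField IsDedekindDomain
open Pool.Agent.P8H82.WS

theorem sef : S_SEF := by
  intro K _ _ A D hne hcop h4 h16
  obtain ⟨s, hs⟩ := h4
  obtain ⟨d, hd⟩ := h16
  have h4' : algebraMap (𝓞 K) K 4 = 4 := map_ofNat _ 4
  have h16' : algebraMap (𝓞 K) K 16 = 16 := map_ofNat _ 16
  have hs' : algebraMap (𝓞 K) K s = (algebraMap (𝓞 K) K A + 1) / 4 := by
    have := congrArg (algebraMap (𝓞 K) K) hs
    rw [map_add, map_mul, map_one, h4'] at this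
    rw [this]
    ring
  have hd' : algebraMap (𝓞 K) K d = algebraMap (𝓞 K) K D / 16 := by
    have := congrArg (algebraMap (𝓞 K) K) hd
    rw [map_mul, h16'] at this
    rw [this]
    ring
  refine ⟨⟨1, ((4 * d - s : 𝓞 K) : K), 0, ((-(A * d) : 𝓞 K) : K), 0⟩, ?_, ?_⟩
  · intro v
    refine ⟨1, ?_, ?_⟩
    · rw [one_smul]
      refine ⟨?_, ?_, ?_, ?_, ?_⟩
      · simp
      · exact v.valuation_le_one (K := K) _
      · simp
      · exact v.valuation_le_one (K := K) _
      · simp
    · rw [one_smul]
      have hΔ : (⟨1, ((4 * d - s : 𝓞 K) : K), 0, ((-(A * d) : 𝓞 K) : K), 0⟩ : WeierstrassCurve K).Δ =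
          (((A * d * (A + D)) ^ 2 : 𝓞 K) : K) := by
        simp only [WeierstrassCurve.Δ, WeierstrassCurve.b₂, WeierstrassCurve.b₄, WeierstrassCurve.b₆,
          WeierstrassCurve.b₈]
        simp only [RingOfIntegers.coe_eq_algebraMap, map_mul, map_add, map_sub, map_neg, map_pow, h4', hs',
          hd']
        ring
      have hc : (⟨1, ((4 * d - s : 𝓞 K) : K), 0, ((-(A * d) : 𝓞 K) : K), 0⟩ : WeierstrassCurve K).c₄ =
          ((A ^ 2 + A * D + D ^ 2 : 𝓞 K) : K) := by
        simp only [WeierstrassCurve.c₄, WeierstrassCurve.b₂, WeierstrassCurve.b₄]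
        simp only [RingOfIntegers.coe_eq_algebraMap, map_mul, map_add, map_sub, map_neg, map_pow, h4', hs',
          hd']
        ring
      rw [hΔ, hc]
      by_cases hmem : A * d * (A + D) ∈ v.asIdeal
      · right
        refine (v.valuation_eq_one_iff_notMem (K := K)).2 ?_
        intro hcm
        have hp := v.isPrime
        have hboth : ∀ {x : 𝓞 K}, A ∈ v.asIdeal → D ∈ v.asIdeal → False := by
          intro _ hA hD
          apply hp.ne_top
          rw [eq_top_iff, ← hcop, Ideal.span_le]
          intro y hy
          rcases hy with rfl | hy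
          · exact hA
          · rw [Set.mem_singleton_iff] at hy
            subst hy
            exact hD
        have hADsum : A * D * (A + D) ∈ v.asIdeal := by
          rw [hd]
          have : A * (16 * d) * (A + 16 * d) = 16 * (A * d * (A + D)) := by rw [hd]; ring
          rw [this]
          exact v.asIdeal.mul_mem_left _ hmem
        rcases hp.mem_or_mem hADsum with h | h
        · rcases hp.mem_or_mem h with h | h
          · have : D ^ 2 ∈ v.asIdeal := by
              have := v.asIdeal.sub_mem hcm (v.asIdeal.mul_mem_left (A + D) h)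
              convert this using 1
              ring
            exact hboth (x := 0) h (hp.mem_of_pow_mem _ this)
          · have : A ^ 2 ∈ v.asIdeal := by
              have := v.asIdeal.sub_mem hcm (v.asIdeal.mul_mem_left (A + D) h)
              convert this using 1
              ring
            exact hboth (x := 0) (hp.mem_of_pow_mem _ this) h
        · have hA : A ^ 2 ∈ v.asIdeal := by
            have := v.asIdeal.sub_mem hcm (v.asIdeal.mul_mem_left D h)
            convert this using 1
            ring
          have hA' := hp.mem_of_pow_mem _ hA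
          have hD : D ∈ v.asIdeal := by
            have := v.asIdeal.sub_mem h hA'
            convert this using 1
            ring
          exact hboth (x := 0) hA' hD
      · left
        refine (v.valuation_eq_one_iff_notMem (K := K)).2 ?_
        intro hm
        exact hmem (v.isPrime.mem_of_pow_mem _ hm)
  · intro x
    simp only [WeierstrassCurve.b₂, WeierstrassCurve.b₄, WeierstrassCurve.b₆]
    simp only [RingOfIntegers.coe_eq_algebraMap, map_mul, map_add, map_sub, map_neg, map_pow, h4', hs',
      hd']
    ring

end Pool.Agent.P8H33.WS
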